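import Pool.Agent.Helper94.UP.Sheet2

/-! Sheet UP, row EKE: Ekeland's variational principle. -/

open Set Filter Topology

namespace Pool.Agent.Helper94.UP

theorem stEKE.{u} : ST_EKE.{u} := by
  intro S _ _ _ ψ hψ hbd ε hε
  obtain ⟨m, hm⟩ := hbd
  have step : ∀ v : S, ∃ w, ψ w + ε * dist w v ≤ ψ v ∧
      ∀ z, ψ z + ε * dist z v ≤ ψ v → ψ w ≤ (ψ v + ψ z) / 2 := by
    intro v
    have hb : BddBelow (ψ '' {z | ψ z + ε * dist z v ≤ ψ v}) := by
      refine ⟨m, ?_⟩
      rintro _ ⟨z, _, rfl⟩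
      exact hm z
    have hne : (ψ '' {z | ψ z + ε * dist z v ≤ ψ v}).Nonempty :=
      ⟨ψ v, v, by simp, rfl⟩
    by_cases h : sInf (ψ '' {z | ψ z + ε * dist z v ≤ ψ v}) < ψ v
    · obtain ⟨_, ⟨w, hw, rfl⟩, hw2⟩ := exists_lt_of_csInf_lt hne
        (show sInf (ψ '' {z | ψ z + ε * dist z v ≤ ψ v}) <
          (ψ v + sInf (ψ '' {z | ψ z + ε * dist z v ≤ ψ v})) / 2 by linarith)
      refine ⟨w, hw, fun z hz => ?_⟩
      have h1 := csInf_le hb ⟨z, hz, rfl⟩
      linarith
    · refine ⟨v, by simp, fun z hz => ?_⟩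
      have h1 := csInf_le hb ⟨z, hz, rfl⟩
      have h2 := not_lt.1 h
      linarith
  choose T hT1 hT2 using step
  set a : ℕ → S := fun n => T^[n] (Classical.arbitrary S) with hadef
  have ha : ∀ n, a (n + 1) = T (a n) := fun n => Function.iterate_succ_apply' T n _
  have hR : ∀ n k, n ≤ k → ψ (a k) + ε * dist (a k) (a n) ≤ ψ (a n) := by
    intro n k h
    induction k, h using Nat.le_induction with
    | base => simp
    | succ k _ ih =>
      have h1 := hT1 (a k)
      rw [← ha] at h1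
      have h2 := mul_le_mul_of_nonneg_left (dist_triangle (a (k + 1)) (a k) (a n)) hε.le
      linarith
  have hanti : Antitone fun n => ψ (a n) := by
    intro n k h
    have h1 := hR n k h
    have h2 : 0 ≤ ε * dist (a k) (a n) := mul_nonneg hε.le dist_nonneg
    change ψ (a k) ≤ ψ (a n)
    linarith
  have hbb : BddBelow (Set.range fun n => ψ (a n)) := by
    refine ⟨m, ?_⟩
    rintro _ ⟨n, rfl⟩
    exact hm _
  obtain ⟨L, hL⟩ : ∃ L, Tendsto (fun n => ψ (a n)) atTop (𝓝 L) :=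
    ⟨_, tendsto_atTop_ciInf hanti hbb⟩
  have hLle : ∀ n, L ≤ ψ (a n) := fun n => hanti.le_of_tendsto hL n
  have hd : ∀ n k, n ≤ k → dist (a k) (a n) ≤ (ψ (a n) - L) / ε := by
    intro n k h
    rw [le_div_iff₀ hε]
    have h1 := hR n k h
    have h2 := hLle k
    linarith
  have hC : CauchySeq a := by
    refine cauchySeq_of_le_tendsto_0 (fun n => 2 * ((ψ (a n) - L) / ε)) ?_ ?_
    · intro n k N hn hk
      have h1 := hd N n hn
      have h2 := hd N k hk
      have h3 := dist_triangle_right (a n) (a k) (a N)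
      linarith
    · have h1 : Tendsto (fun n => 2 * ((ψ (a n) - L) / ε)) atTop (𝓝 (2 * ((L - L) / ε))) :=
        ((hL.sub_const L).div_const ε).const_mul 2
      simpa using h1
  obtain ⟨v, hv⟩ := cauchySeq_tendsto_of_complete hC
  have hlim : Tendsto (fun n => ψ (a n)) atTop (𝓝 (ψ v)) := (hψ.tendsto v).comp hv
  have hRv : ∀ n, ψ v + ε * dist v (a n) ≤ ψ (a n) := by
    intro n
    have h1 : Tendsto (fun k => ψ (a k) + ε * dist (a k) (a n)) atTop
        (𝓝 (ψ v + ε * dist v (a n))) :=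
      hlim.add ((hv.dist tendsto_const_nhds).const_mul ε)
    exact le_of_tendsto h1 ((eventually_ge_atTop n).mono fun k hk => hR n k hk)
  refine ⟨v, fun w => ?_⟩
  by_contra hw
  have hw' := not_le.1 hw
  have h1 : ∀ n, ψ w + ε * dist w (a n) ≤ ψ (a n) := by
    intro n
    have e1 := hRv n
    have e2 := mul_le_mul_of_nonneg_left (dist_triangle w v (a n)) hε.le
    linarith
  have h2 : ∀ n, ψ (a (n + 1)) ≤ (ψ (a n) + ψ w) / 2 := fun n => by
    rw [ha]
    exact hT2 _ _ (h1 n)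
  have h3 : ψ v ≤ (ψ v + ψ w) / 2 :=
    le_of_tendsto_of_tendsto' ((tendsto_add_atTop_iff_nat 1).2 hlim)
      ((hlim.add_const (ψ w)).div_const 2) h2
  have h4 : 0 ≤ ε * dist w v := mul_nonneg hε.le dist_nonneg
  linarith

end Pool.Agent.Helper94.UP
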